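import Pool.Agent.H82.HD.TA
import Pool.Agent.H91.G.SSA

/-!
Row BCS1 of the board hds_modules: localized sub-sums on balls of radius `R^{1/2}`.
-/

set_option autoImplicit false

namespace Pool.Agent.H61.HD

open MeasureTheory Set
open Pool.Agent.H83.G
open Pool.Agent.H82.HD
open Pool.Agent.H22.G (co)
open Pool.Agent.H91.G (TF_sum TC_int)
open scoped ENNReal NNReal RealInnerProductSpace

variable {m : ℕ}

theorem TF_inj (hIVZ : T_IVZ) (G G' : Z m → ℂ) (h : TC G) (h' : TC G')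
    (he : ∀ z, TF G z = TF G' z) : ∀ ζ, G ζ = G' ζ := by
  intro ζ
  rw [← (hIVZ m G h).2 ζ, ← (hIVZ m G' h').2 ζ]
  refine integral_congr_ae (Filter.Eventually.of_forall fun z => ?_)
  simp only [he]

theorem cp_supp (β : E m → ℂ) (hβ : ∀ x, 1 ≤ ‖x‖ → β x = 0) (η : E m) (s : ℝ) (hs : 0 < s)
    (ζ : Z m) (h : cp β η s ζ ≠ 0) : ‖ζ.1⁻¹ • ζ.2.1 - η‖ ≤ s := by
  by_contra hcon
  rw [not_le] at hcon
  apply h
  unfold cp
  apply hβ
  rw [norm_smul, norm_inv, Real.norm_of_nonneg hs.le, ← div_eq_inv_mul, le_div_iff₀ hs, one_mul]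
  exact hcon.le

theorem TC_sum {ι : Type} (I : Finset ι) (G : ι → Z m → ℂ) (h : ∀ k ∈ I, TC (G k)) :
    TC (fun ζ => ∑ k ∈ I, G k ζ) := by
  classical
  induction I using Finset.induction_on with
  | empty =>
    simp only [Finset.sum_empty]
    exact ⟨contDiff_const, HasCompactSupport.zero⟩
  | insert a s ha ih =>
    have h1 := ih fun k hk => h k (Finset.mem_insert_of_mem hk)
    have h2 := h a (Finset.mem_insert_self a s)
    simp only [Finset.sum_insert ha]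
    exact ⟨h2.1.add h1.1, h2.2.add h1.2⟩

theorem enorm_sum_sq {ι : Type} (I : Finset ι) (f : ι → ℂ) :
    ‖∑ i ∈ I, f i‖ₑ ^ 2 ≤ (I.card : ℝ≥0∞) * ∑ i ∈ I, ‖f i‖ₑ ^ 2 := by
  have h1 : ∀ y : ℂ, ‖y‖ₑ ^ 2 = ENNReal.ofReal (‖y‖ ^ 2) := fun y => by
    rw [← ofReal_norm, ENNReal.ofReal_pow (norm_nonneg _)]
  simp only [h1]
  rw [← ENNReal.ofReal_sum_of_nonneg (fun i _ => by positivity), ← ENNReal.ofReal_natCast,
    ← ENNReal.ofReal_mul (by positivity)]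
  apply ENNReal.ofReal_le_ofReal
  calc ‖∑ i ∈ I, f i‖ ^ 2 ≤ (∑ i ∈ I, ‖f i‖) ^ 2 := by
        gcongr
        exact norm_sum_le _ _
    _ ≤ _ := sq_sum_le_card_mul_sum_sq

theorem TP_smul (c : ℝ) (β : E m → ℂ) (η : E m) (s : ℝ) (G : Z m → ℂ) (z : Z m) :
    TP (fun x => (c : ℂ) * β x) η s G z = (c : ℂ) * TP β η s G z := by
  unfold TP TF cp
  rw [← integral_const_mul]
  refine integral_congr_ae (Filter.Eventually.of_forall fun ζ => ?_)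
  simp only
  ring

theorem Lo_id (z : Z m) : Lo (0 : E m) 1 z = z := by
  unfold Lo
  simp


theorem pf_BCS1 (hRLW : T_RLW) (hPKT : T_PKT) (hIVZ : T_IVZ) (hLO : T_LO) (hWM : T_WM)
    (hPUB : T_PUB) (hPUS : T_PUS) (hCPS : T_CPS) (hSCH : T_SCH) (hWT1 : T_WT1) : T_BCS1 := by
  intro m N β Ψ Ξ ψ χ δ δ' hβ hψ hχ hδ hδ4 hδ' hN
  obtain ⟨hpart, _, Cu, hCu0, _, hcount, hctr⟩ := hPUS m
  obtain ⟨N₁, C₁, hN₁, hC₁⟩ := hRLW m N β δ' hβ hδ' hN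
  obtain ⟨Cp, hCp1, hPK⟩ := hPKT m β Ψ Ξ ψ χ hβ hψ hχ
  set D : ℝ := Cu + 3 with hD
  set N₀ : ℕ := ⌈Cu * (1 + 2 * D) ^ m⌉₊ with hN₀
  obtain ⟨C₂, hC₂⟩ := hLO m N₁ N₀ D (hN.trans hN₁) (by linarith)
  obtain ⟨C₃, hC₃⟩ := hWM m N₁ (N₁ + m + 3) D le_rfl (by linarith)
  obtain ⟨Cb, hCb1, hφ⟩ := hPUB m (N₁ + m + 3) β hβ
  have hCb0 : 0 < Cb := by linarith
  have hCp0 : 0 < Cp := by linarith
  set Ctot : ℝ := 2 ^ N₁ * (C₂ : ℝ) * (Cb ^ 2 * (C₃ : ℝ) * Cp ^ 2) * (Cu * 7 ^ m) * (C₁ : ℝ)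
    with hCtot
  have hCtot0 : 0 ≤ Ctot := by rw [hCtot]; positivity
  refine ⟨Ctot + 8 * Cp, by linarith, ?_⟩
  intro κ R r ρ G G' S w x k' hκ0 hκ1 hR hCR hr hrR hρ hρR hG hGR hSK hG' hTF
  have hR0 : 0 < R := by linarith
  have hsqR : 0 < Real.sqrt R := Real.sqrt_pos.2 hR0
  have hsqR1 : 1 ≤ Real.sqrt R := Real.one_le_sqrt.2 hR
  have hρ0 : 0 < ρ := by linarith
  have hsqρ : 0 < Real.sqrt ρ := Real.sqrt_pos.2 hρ0
  have hsqρ1 : 1 ≤ Real.sqrt ρ := Real.one_le_sqrt.2 hρ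
  have hsqρR : Real.sqrt ρ ≤ Real.sqrt R := Real.sqrt_le_sqrt hρR
  set s : ℝ := sR R with hs
  set s' : ℝ := sR ρ with hs'
  have hse : s = (Real.sqrt R)⁻¹ := rfl
  have hs'e : s' = (Real.sqrt ρ)⁻¹ := rfl
  have hs0 : 0 < s := by rw [hse]; positivity
  have hs'0 : 0 < s' := by rw [hs'e]; positivity
  have hss' : s ≤ s' := by
    rw [hse, hs'e]
    exact inv_anti₀ hsqρ hsqρR
  have hs1 : s ≤ 1 := by
    rw [hse]
    exact inv_le_one_of_one_le₀ hsqR1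
  have hs'1 : s' ≤ 1 := by
    rw [hs'e]
    exact inv_le_one_of_one_le₀ hsqρ1
  have hRs : Real.sqrt R * s = 1 := by
    rw [hse]
    exact mul_inv_cancel₀ hsqR.ne'
  have hRs' : 1 ≤ Real.sqrt R * s' := by
    calc (1 : ℝ) = Real.sqrt R * s := hRs.symm
      _ ≤ _ := by gcongr
  have hRδ : 0 < R ^ δ := Real.rpow_pos_of_pos hR0 _
  have hCpR : Cp ≤ R ^ δ := by linarith
  have hCpR8 : Cp * R ^ (-δ) ≤ 1 / 8 := by
    rw [Real.rpow_neg hR0.le, ← div_eq_mul_inv, div_le_iff₀ hRδ]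
    linarith
  have hrCp : r ≤ R / Cp := by
    refine hrR.trans ?_
    apply div_le_div_of_nonneg_left hR0.le hCp0
    linarith
  obtain ⟨g, hgTC, hgsupp, hgTF, hgdom⟩ :=
    (hPK κ R r δ G S w hκ0 hκ1 hδ hδ4 hR hCpR hG hGR).2 hr hrCp
  have hg1 : ∀ k ζ, g k ζ ≠ 0 → 1 / 4 ≤ ζ.1 ∧ ζ.1 ≤ 8 := by
    intro k ζ h
    have h1 := (hgsupp k ζ h).1
    have h2 := h1.1
    have h3 := h1.2.1
    constructor <;> linarith
  have hG1 : ∀ ζ, G ζ ≠ 0 → 1 / 2 ≤ ζ.1 ∧ ζ.1 ≤ 6 := by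
    intro ζ h
    have h1 := hGR ζ h
    have h2 := h1.1
    have h3 := h1.2.1
    constructor <;> linarith
  have hG14 : ∀ ζ, G ζ ≠ 0 → 1 / 4 ≤ ζ.1 := fun ζ h => by linarith [(hG1 ζ h).1]
  -- the sum
  classical
  set K : Finset (Fin m → ℤ) := S.image (fun W => W.1) with hK
  have hKs : ∀ k ∈ K, k ∈ Ks m s := by
    intro k hk
    obtain ⟨W, hW, rfl⟩ := Finset.mem_image.1 hk
    exact hSK W hW
  have hG'e : ∀ ζ, G' ζ = ∑ k ∈ K, g k ζ := by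
    apply TF_inj hIVZ G' _ hG' (TC_sum K g fun k _ => hgTC k)
    intro z
    rw [hTF z, TF_sum K g (fun k _ => hgTC k) z]
    simp only [hgTF]
    rw [← Finset.mul_sum]
    congr 1
    exact (Finset.sum_fiberwise_of_maps_to (fun W hW => Finset.mem_image_of_mem _ hW) _).symm
  set c' : E m := ctr s' k' with hc'
  set K' : Finset (Fin m → ℤ) := K.filter (fun k => ‖ctr s k - c'‖ ≤ 3 * s') with hK'
  have hK'K : ∀ k ∈ K', k ∈ K := fun k hk => (Finset.mem_filter.1 hk).1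
  have hK'd : ∀ k ∈ K', ‖ctr s k - c'‖ ≤ 3 * s' := fun k hk => (Finset.mem_filter.1 hk).2
  set h : (Fin m → ℤ) → Z m → ℂ := fun k ζ => cp β c' s' ζ * g k ζ with hh
  have hTCh : ∀ k, TC (h k) := fun k =>
    hCPS m β c' s' (g k) hβ.1 hs'0 (hgTC k) fun ζ hζ => (hg1 k ζ hζ).1
  have hhne : ∀ k ζ, h k ζ ≠ 0 → g k ζ ≠ 0 ∧ ‖ζ.1⁻¹ • ζ.2.1 - c'‖ ≤ s' := by
    intro k ζ hζ
    refine ⟨fun h1 => hζ (by simp only [hh, h1, mul_zero]), ?_⟩
    apply cp_supp β hβ.2.1 c' s' hs'0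
    intro h1
    exact hζ (by simp only [hh, h1, zero_mul])
  have hTPsum : ∀ z, TP β c' s' G' z = ∑ k ∈ K', TF (h k) z := by
    intro z
    rw [← TF_sum K' h (fun k _ => hTCh k) z]
    unfold TP
    congr 1
    funext ζ
    rw [hG'e, Finset.mul_sum]
    change ∑ k ∈ K, h k ζ = ∑ k ∈ K', h k ζ
    symm
    refine Finset.sum_subset (Finset.filter_subset _ _) fun k hk hk' => ?_
    by_contra hne
    obtain ⟨h1, h2⟩ := hhne k ζ hne
    apply hk'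
    rw [hK', Finset.mem_filter]
    refine ⟨hk, ?_⟩
    have h3 := (hgsupp k ζ h1).2
    calc ‖ctr s k - c'‖ = ‖(ζ.1⁻¹ • ζ.2.1 - c') - (ζ.1⁻¹ • ζ.2.1 - ctr s k)‖ := by
          congr 1; abel
      _ ≤ ‖ζ.1⁻¹ • ζ.2.1 - c'‖ + ‖ζ.1⁻¹ • ζ.2.1 - ctr s k‖ := norm_sub_le _ _
      _ ≤ s' + 2 * s := by gcongr
      _ ≤ s' + 2 * s' := by gcongr
      _ = _ := by ring
  set W : Z m → ℝ≥0∞ := fun z => ENNReal.ofReal (wt N₁ ((Real.sqrt R)⁻¹ • (z - x))) with hW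
  have hWx : ∀ z, W z = ENNReal.ofReal
      (wt N₁ ((Real.sqrt R)⁻¹ • Lo (0 : E m) 1 z - (Real.sqrt R)⁻¹ • x)) := by
    intro z
    rw [hW, Lo_id, ← smul_sub]
  -- step 1
  have hstep1 : ∫⁻ z in {z : Z m | ‖z - x‖ ≤ Real.sqrt R}, ‖TP β c' s' G' z‖ₑ ^ 2 ≤
      2 ^ N₁ * ∫⁻ z, ‖∑ k ∈ K', TF (h k) z‖ₑ ^ 2 * W z := by
    have hms : MeasurableSet {z : Z m | ‖z - x‖ ≤ Real.sqrt R} := by
      have hc : Continuous (fun z : Z m => ‖z - x‖) := by fun_prop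
      exact (isClosed_le hc continuous_const).measurableSet
    have hw1 : ∀ z ∈ {z : Z m | ‖z - x‖ ≤ Real.sqrt R}, (1 : ℝ≥0∞) ≤ 2 ^ N₁ * W z := by
      intro z hz
      have hz' : ‖z - x‖ ≤ Real.sqrt R := hz
      have h1 : ‖(Real.sqrt R)⁻¹ • (z - x)‖ ≤ 1 := by
        rw [norm_smul, norm_inv, Real.norm_of_nonneg hsqR.le, inv_mul_le_iff₀ hsqR, mul_one]
        exact hz'
      have h2 : (2 : ℝ≥0∞) ^ N₁ = ENNReal.ofReal (2 ^ N₁) := by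
        rw [ENNReal.ofReal_pow (by norm_num), ENNReal.ofReal_ofNat]
      rw [hW, h2, ← ENNReal.ofReal_mul (by positivity), ← ENNReal.ofReal_one]
      apply ENNReal.ofReal_le_ofReal
      unfold wt
      rw [← div_eq_mul_inv, one_le_div (by positivity)]
      exact pow_le_pow_left₀ (by positivity) (by linarith) _
    calc ∫⁻ z in {z : Z m | ‖z - x‖ ≤ Real.sqrt R}, ‖TP β c' s' G' z‖ₑ ^ 2
        ≤ ∫⁻ z in {z : Z m | ‖z - x‖ ≤ Real.sqrt R},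
            2 ^ N₁ * (‖∑ k ∈ K', TF (h k) z‖ₑ ^ 2 * W z) := by
          refine setLIntegral_mono' hms fun z hz => ?_
          rw [hTPsum z]
          calc ‖∑ k ∈ K', TF (h k) z‖ₑ ^ 2 = 1 * ‖∑ k ∈ K', TF (h k) z‖ₑ ^ 2 := (one_mul _).symm
            _ ≤ (2 ^ N₁ * W z) * ‖∑ k ∈ K', TF (h k) z‖ₑ ^ 2 := by
                gcongr
                exact hw1 z hz
            _ = _ := by ring
      _ ≤ ∫⁻ z, 2 ^ N₁ * (‖∑ k ∈ K', TF (h k) z‖ₑ ^ 2 * W z) :=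
          setLIntegral_le_lintegral _ _
      _ = _ := lintegral_const_mul' _ _ (by finiteness)
  -- step 2: local orthogonality
  have hctrD : ∀ k ∈ K', ‖ctr s k‖ ≤ Cu := fun k hk => hctr s k hs0 hs1 (hKs k (hK'K k hk))
  have hstep2 : ∫⁻ z, ‖∑ k ∈ K', TF (h k) z‖ₑ ^ 2 * W z ≤
      C₂ * ∑ k ∈ K', ∫⁻ z, ‖TF (h k) z‖ₑ ^ 2 * W z := by
    simp only [hWx]
    refine hC₂ (Fin m → ℤ) K' h (fun k => ctr s k) s 1 (Real.sqrt R) 0 _ hs0 one_pos hsqR1 ?_ ?_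
      (fun k _ => hTCh k) ?_ ?_
    · rw [mul_assoc, hRs]
      linarith
    · intro k hk
      rw [sub_zero, mul_assoc, hRs, mul_one]
      have := hctrD k hk
      linarith
    · intro k hk ζ hζ
      obtain ⟨h1, _⟩ := hhne k ζ hζ
      obtain ⟨h2, h3⟩ := hg1 k ζ h1
      refine ⟨h2, h3, (hgsupp k ζ h1).2.trans ?_⟩
      have : (2 : ℝ) ≤ D := by linarith
      gcongr
    · intro y J _ hJ
      have h1 := hcount s (2 * D * s) y J hs0 (by positivity) (by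
        intro k hk
        rw [norm_sub_rev]
        exact hJ k hk)
      rw [mul_div_assoc, div_self hs0.ne', mul_one] at h1
      have h2 : (J.card : ℝ) ≤ N₀ := h1.trans (by rw [hN₀]; exact Nat.le_ceil _)
      exact_mod_cast h2
  -- step 3
  have hstep3 : ∀ k ∈ K', ∫⁻ z, ‖TF (h k) z‖ₑ ^ 2 * W z ≤
      ENNReal.ofReal (Cb ^ 2 * C₃ * Cp ^ 2) *
        ∫⁻ z, ‖TP β (ctr s k) s G z‖ₑ ^ 2 * W z := by
    intro k hk
    have hc'D : ‖c'‖ ≤ D := by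
      have h1 := hctrD k hk
      have h2 := hK'd k hk
      calc ‖c'‖ = ‖ctr s k - (ctr s k - c')‖ := by congr 1; abel
        _ ≤ ‖ctr s k‖ + ‖ctr s k - c'‖ := norm_sub_le _ _
        _ ≤ Cu + 3 * s' := by linarith
        _ ≤ D := by linarith
    have h1 : ∫⁻ z, ‖TP (fun x => ((Cb⁻¹ : ℝ) : ℂ) * β x) c' s' (g k) z‖ₑ ^ 2 * W z ≤
        C₃ * ∫⁻ z, ‖TF (g k) z‖ₑ ^ 2 * W z := by
      simp only [hWx]
      refine hC₃ _ hφ 0 c' 1 s' (Real.sqrt R) _ (g k) one_pos hs'0 hsqR1 ?_ ?_ (hgTC k)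
        (fun ζ hζ => hg1 k ζ hζ)
      · calc (1 : ℝ) ≤ Real.sqrt R * s' := hRs'
          _ ≤ D * (Real.sqrt R * s') := by
              apply le_mul_of_one_le_left (by positivity)
              linarith
          _ = _ := by ring
      · rw [sub_zero]
        calc ‖c'‖ ≤ D := hc'D
          _ ≤ D * (Real.sqrt R * s') := by
              apply le_mul_of_one_le_right (by linarith) hRs'
          _ = _ := by ring
    have h2 : ∀ z, ‖TF (h k) z‖ₑ ^ 2 * W z = ENNReal.ofReal (Cb ^ 2) *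
        (‖TP (fun x => ((Cb⁻¹ : ℝ) : ℂ) * β x) c' s' (g k) z‖ₑ ^ 2 * W z) := by
      intro z
      have h3 : TF (h k) z =
          (Cb : ℂ) * TP (fun x => ((Cb⁻¹ : ℝ) : ℂ) * β x) c' s' (g k) z := by
        rw [TP_smul, ← mul_assoc]
        have : (Cb : ℂ) * ((Cb⁻¹ : ℝ) : ℂ) = 1 := by
          rw [← Complex.ofReal_mul, mul_inv_cancel₀ hCb0.ne', Complex.ofReal_one]
        rw [this, one_mul]
        rfl
      rw [h3, enorm_mul, mul_pow, ← mul_assoc]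
      congr 2
      rw [← ofReal_norm, Complex.norm_real, Real.norm_of_nonneg hCb0.le,
        ENNReal.ofReal_pow hCb0.le]
    rw [lintegral_congr h2, lintegral_const_mul' _ _ ENNReal.ofReal_ne_top]
    have h4 : ∀ z, ‖TF (g k) z‖ₑ ^ 2 * W z ≤
        ENNReal.ofReal (Cp ^ 2) * (‖TP β (ctr s k) s G z‖ₑ ^ 2 * W z) := by
      intro z
      have h5 : ‖TF (g k) z‖ₑ ≤ ENNReal.ofReal Cp * ‖TP β (ctr s k) s G z‖ₑ := by
        rw [← ofReal_norm, ← ofReal_norm, ← ENNReal.ofReal_mul hCp0.le]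
        exact ENNReal.ofReal_le_ofReal (hgdom k z)
      calc ‖TF (g k) z‖ₑ ^ 2 * W z ≤ (ENNReal.ofReal Cp * ‖TP β (ctr s k) s G z‖ₑ) ^ 2 * W z := by
            gcongr
        _ = _ := by
            rw [mul_pow, ENNReal.ofReal_pow hCp0.le]
            ring
    calc ENNReal.ofReal (Cb ^ 2) *
          ∫⁻ z, ‖TP (fun x => ((Cb⁻¹ : ℝ) : ℂ) * β x) c' s' (g k) z‖ₑ ^ 2 * W z
        ≤ ENNReal.ofReal (Cb ^ 2) * (C₃ * ∫⁻ z, ‖TF (g k) z‖ₑ ^ 2 * W z) := by gcongr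
      _ ≤ ENNReal.ofReal (Cb ^ 2) * (C₃ * (ENNReal.ofReal (Cp ^ 2) *
            ∫⁻ z, ‖TP β (ctr s k) s G z‖ₑ ^ 2 * W z)) := by
          gcongr
          rw [← lintegral_const_mul' _ _ ENNReal.ofReal_ne_top]
          exact lintegral_mono h4
      _ = _ := by
          rw [ENNReal.ofReal_mul (by positivity), ENNReal.ofReal_mul (by positivity),
            ENNReal.ofReal_coe_nnreal]
          ring
  -- step 4: partition of unity of scale `s'`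
  set K'' : Finset (Fin m → ℤ) := (Ks m s').filter (fun k => ‖ctr s' k - ctr s' k'‖ ≤ 6 * s')
    with hK''
  set G₂ : (Fin m → ℤ) → Z m → ℂ := fun k ζ => cp β (ctr s' k) s' ζ * G ζ with hG₂
  have hTCG₂ : ∀ k, TC (G₂ k) := fun k => hCPS m β (ctr s' k) s' G hβ.1 hs'0 hG hG14
  have hG₂ne : ∀ k ζ, G₂ k ζ ≠ 0 → G ζ ≠ 0 := fun k ζ hζ h1 => hζ (by simp only [hG₂, h1, mul_zero])
  have hTCGG : ∀ k l, TC (fun ζ => cp β (ctr s k) s ζ * G₂ l ζ) := fun k l =>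
    hCPS m β (ctr s k) s (G₂ l) hβ.1 hs0 (hTCG₂ l) fun ζ hζ => hG14 ζ (hG₂ne l ζ hζ)
  have hdec : ∀ k ∈ K', ∀ z, TP β (ctr s k) s G z = ∑ l ∈ K'', TP β (ctr s k) s (G₂ l) z := by
    intro k hk z
    unfold TP
    rw [← TF_sum K'' (fun l ζ => cp β (ctr s k) s ζ * G₂ l ζ) (fun l _ => hTCGG k l) z]
    congr 1
    funext ζ
    by_cases hGζ : G ζ = 0
    · simp only [hG₂, hGζ, mul_zero, Finset.sum_const_zero]
    have hζR := hGR ζ hGζ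
    have hζ0 : 0 < ζ.1 := by linarith [(hG1 ζ hGζ).1]
    have h1 : ‖ζ.1⁻¹ • ζ.2.1‖ ≤ 3 / 2 := by
      rw [norm_smul, norm_inv, Real.norm_of_nonneg hζ0.le, inv_mul_le_iff₀ hζ0]
      have := hζR.2.2.1
      nlinarith
    have h2 := (hpart β s' hβ hs'0).2 hs'1 ζ h1
    have h3 : cp β (ctr s k) s ζ * G ζ = ∑ l ∈ Ks m s', cp β (ctr s k) s ζ * G₂ l ζ := by
      simp only [hG₂]
      rw [← Finset.mul_sum, ← Finset.sum_mul, h2, one_mul]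
    rw [h3]
    symm
    refine Finset.sum_subset (Finset.filter_subset _ _) fun l hl hl' => ?_
    by_contra hne
    apply hl'
    rw [hK'', Finset.mem_filter]
    refine ⟨hl, ?_⟩
    have h4 : ‖ζ.1⁻¹ • ζ.2.1 - ctr s k‖ ≤ s := by
      apply cp_supp β hβ.2.1 _ s hs0
      intro h5
      exact hne (by rw [h5, zero_mul])
    have h6 : ‖ζ.1⁻¹ • ζ.2.1 - ctr s' l‖ ≤ s' := by
      apply cp_supp β hβ.2.1 _ s' hs'0
      intro h5
      exact hne (by simp only [hG₂, h5, zero_mul, mul_zero])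
    have h7 := hK'd k hk
    calc ‖ctr s' l - ctr s' k'‖ = ‖(ζ.1⁻¹ • ζ.2.1 - ctr s k) - (ζ.1⁻¹ • ζ.2.1 - ctr s' l) +
          (ctr s k - c')‖ := by
          congr 1
          rw [hc']
          abel
      _ ≤ ‖(ζ.1⁻¹ • ζ.2.1 - ctr s k) - (ζ.1⁻¹ • ζ.2.1 - ctr s' l)‖ + ‖ctr s k - c'‖ :=
          norm_add_le _ _
      _ ≤ (‖ζ.1⁻¹ • ζ.2.1 - ctr s k‖ + ‖ζ.1⁻¹ • ζ.2.1 - ctr s' l‖) + ‖ctr s k - c'‖ := by
          gcongr
          exact norm_sub_le _ _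
      _ ≤ (s + s') + 3 * s' := by gcongr
      _ ≤ 6 * s' := by linarith
  have hWm : Measurable W := by
    rw [hW]
    have h1 : Continuous (wt N₁ : Z m → ℝ) := (hWT1 m N₁).2.1
    have h2 : Continuous (fun z : Z m => wt N₁ ((Real.sqrt R)⁻¹ • (z - x))) := by fun_prop
    exact h2.measurable.ennreal_ofReal
  have hTPm : ∀ k l, Measurable (fun z => ‖TP β (ctr s k) s (G₂ l) z‖ₑ ^ 2 * W z) := by
    intro k l
    have h2 : Continuous (TF (fun ζ => cp β (ctr s k) s ζ * G₂ l ζ)) := (hSCH m _ (hTCGG k l)).1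
    exact (h2.measurable.enorm.pow_const 2).mul hWm
  have hstep4 : ∀ k ∈ K', ∫⁻ z, ‖TP β (ctr s k) s G z‖ₑ ^ 2 * W z ≤
      (K''.card : ℝ≥0∞) * ∑ l ∈ K'', ∫⁻ z, ‖TP β (ctr s k) s (G₂ l) z‖ₑ ^ 2 * W z := by
    intro k hk
    rw [← lintegral_finsetSum K'' fun l _ => hTPm k l,
      ← lintegral_const_mul' _ _ (ENNReal.natCast_ne_top _)]
    refine lintegral_mono fun z => ?_
    rw [hdec k hk z, ← Finset.sum_mul, ← mul_assoc]
    gcongr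
    exact enorm_sum_sq K'' _
  -- step 5: reverse local orthogonality
  have hstep5 : ∀ l, ∑ k ∈ K', ∫⁻ z, ‖TP β (ctr s k) s (G₂ l) z‖ₑ ^ 2 * W z ≤
      C₁ * ENNReal.ofReal (R ^ δ') * ∫⁻ z, ‖TP β (ctr s' l) s' G z‖ₑ ^ 2 *
          ENNReal.ofReal (wt N ((Real.sqrt R)⁻¹ • (z - x))) := by
    intro l
    exact hC₁ R x (G₂ l) K' hR (fun k hk => hKs k (hK'K k hk)) (hTCG₂ l)
      (fun ζ hζ => hG1 ζ (hG₂ne l ζ hζ))
  have hcard : (K''.card : ℝ≥0∞) ≤ ENNReal.ofReal (Cu * 7 ^ m) := by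
    rw [← ENNReal.ofReal_natCast]
    apply ENNReal.ofReal_le_ofReal
    have h1 := hcount s' (6 * s') (ctr s' k') K'' hs'0 (by positivity)
      (fun k hk => (Finset.mem_filter.1 hk).2)
    rw [mul_div_assoc, div_self hs'0.ne', mul_one] at h1
    refine h1.trans (le_of_eq ?_)
    norm_num
  set T : ℝ≥0∞ := ∑ l ∈ K'', ∫⁻ z, ‖TP β (ctr s' l) s' G z‖ₑ ^ 2 *
          ENNReal.ofReal (wt N ((Real.sqrt R)⁻¹ • (z - x))) with hT
  calc ∫⁻ z in {z : Z m | ‖z - x‖ ≤ Real.sqrt R}, ‖TP β c' s' G' z‖ₑ ^ 2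
      ≤ 2 ^ N₁ * ∫⁻ z, ‖∑ k ∈ K', TF (h k) z‖ₑ ^ 2 * W z := hstep1
    _ ≤ 2 ^ N₁ * (C₂ * ∑ k ∈ K', ∫⁻ z, ‖TF (h k) z‖ₑ ^ 2 * W z) := by gcongr
    _ ≤ 2 ^ N₁ * (C₂ * ∑ k ∈ K', ENNReal.ofReal (Cb ^ 2 * C₃ * Cp ^ 2) *
          ((K''.card : ℝ≥0∞) * ∑ l ∈ K'', ∫⁻ z, ‖TP β (ctr s k) s (G₂ l) z‖ₑ ^ 2 * W z)) := by
        refine mul_le_mul' le_rfl (mul_le_mul' le_rfl (Finset.sum_le_sum fun k hk => ?_))
        exact (hstep3 k hk).trans (mul_le_mul' le_rfl (hstep4 k hk))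
    _ = 2 ^ N₁ * (C₂ * (ENNReal.ofReal (Cb ^ 2 * C₃ * Cp ^ 2) * ((K''.card : ℝ≥0∞) *
          ∑ l ∈ K'', ∑ k ∈ K', ∫⁻ z, ‖TP β (ctr s k) s (G₂ l) z‖ₑ ^ 2 * W z))) := by
        rw [← Finset.mul_sum, ← Finset.mul_sum, Finset.sum_comm]
    _ ≤ 2 ^ N₁ * (C₂ * (ENNReal.ofReal (Cb ^ 2 * C₃ * Cp ^ 2) * (ENNReal.ofReal (Cu * 7 ^ m) *
          (C₁ * ENNReal.ofReal (R ^ δ') * T)))) := by
        gcongr
        rw [hT, Finset.mul_sum]
        exact Finset.sum_le_sum fun l _ => hstep5 l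
    _ = ENNReal.ofReal (Ctot * R ^ δ') * T := by
        have h2 : (2 : ℝ≥0∞) ^ N₁ = ENNReal.ofReal (2 ^ N₁) := by
          rw [ENNReal.ofReal_pow (by norm_num), ENNReal.ofReal_ofNat]
        have hc : ∀ c : ℝ≥0, (c : ℝ≥0∞) = ENNReal.ofReal (c : ℝ) := fun c =>
          (ENNReal.ofReal_coe_nnreal).symm
        have hR' : 0 ≤ R ^ δ' := Real.rpow_nonneg hR0.le _
        rw [h2, hc C₁, hc C₂, ← mul_assoc, ← mul_assoc, ← mul_assoc, ← mul_assoc, ← mul_assoc]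
        rw [← ENNReal.ofReal_mul (by positivity), ← ENNReal.ofReal_mul (by positivity),
          ← ENNReal.ofReal_mul (by positivity), ← ENNReal.ofReal_mul (by positivity),
          ← ENNReal.ofReal_mul (by positivity)]
    _ ≤ ENNReal.ofReal ((Ctot + 8 * Cp) * R ^ δ') * T := by
        gcongr
        linarith

end Pool.Agent.H61.HD
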